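import Mathlib

/-! Rademacher averages: type from B-convexity and a vector contraction inequality. -/

open Finset
open scoped BigOperators

namespace Pool.Agent.H.MP_d665d0_pr

/-- real value of a sign -/
def sg (e : ℤˣ) : ℝ := ((e : ℤ) : ℝ)

lemma sg_one : sg 1 = 1 := by simp [sg]
lemma sg_neg (e : ℤˣ) : sg (-e) = -sg e := by simp [sg]
lemma sg_mul (a b : ℤˣ) : sg (a * b) = sg a * sg b := by simp [sg]
lemma abs_sg (e : ℤˣ) : |sg e| = 1 := by
  rcases Int.units_eq_one_or e with h | h <;> simp [h, sg]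

lemma exp_sign (F : ℤˣ → ℝ) : 𝔼 e : ℤˣ, F e = (F 1 + F (-1)) / 2 := by
  rw [Fintype.expect_eq_sum_div_card, UnitsInt.univ, Finset.sum_pair (by decide), Fintype.card_units_int]
  norm_num

lemma exp_prod {A B : Type*} [Fintype A] [Fintype B] (F : A × B → ℝ) :
    𝔼 p : A × B, F p = 𝔼 a : A, 𝔼 b : B, F (a, b) := by
  rw [← Finset.univ_product_univ, Finset.expect_product]

lemma exp_succ {A : Type*} [Fintype A] (n : ℕ) (F : (Fin (n + 1) → A) → ℝ) :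
    𝔼 e : Fin (n + 1) → A, F e = 𝔼 a : A, 𝔼 e : Fin n → A, F (Fin.cons a e) := by
  rw [← exp_prod (fun p : A × (Fin n → A) => F (Fin.cons p.1 p.2))]
  exact (Fintype.expect_equiv (Fin.consEquiv fun _ => A) _ _ fun p => rfl).symm

lemma exp_eval {ι A : Type*} [Fintype ι] [DecidableEq ι] [Fintype A] [Nonempty A] (i : ι) (g : A → ℝ) :
    𝔼 e : ι → A, g (e i) = 𝔼 a : A, g a := by
  rw [Fintype.expect_equiv (Equiv.funSplitAt i A) (fun e => g (e i)) (fun p => g p.1) fun e => rfl,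
    exp_prod (fun p : A × ({ j // j ≠ i } → A) => g p.1)]
  simp

lemma exp_mono {A : Type*} [Fintype A] {F G : A → ℝ} (h : ∀ a, F a ≤ G a) : 𝔼 a, F a ≤ 𝔼 a, G a :=
  Finset.expect_le_expect fun a _ => h a

variable {X : Type*} [NormedAddCommGroup X] [NormedSpace ℝ X]

/-- type two inequality with constant `c` for families indexed by `ι` -/
def Ty (X : Type*) [NormedAddCommGroup X] [NormedSpace ℝ X] (ι : Type) [Fintype ι] [DecidableEq ι]
    (c : ℝ) : Prop :=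
  ∀ x : ι → X, 𝔼 e : ι → ℤˣ, ‖∑ i, sg (e i) • x i‖ ^ 2 ≤ c * ∑ i, ‖x i‖ ^ 2

lemma Ty.equiv {ι κ : Type} [Fintype ι] [DecidableEq ι] [Fintype κ] [DecidableEq κ] {c : ℝ} (φ : ι ≃ κ)
    (h : Ty X ι c) : Ty X κ c := by
  intro x
  have := h (fun i => x (φ i))
  rw [Equiv.sum_comp φ (fun j => ‖x j‖ ^ 2)] at this
  refine le_of_eq_of_le ?_ this
  refine (Fintype.expect_equiv (Equiv.arrowCongr φ (Equiv.refl ℤˣ)) _ _ fun e => ?_).symm
  rw [← Equiv.sum_comp φ (fun j => sg ((Equiv.arrowCongr φ (Equiv.refl ℤˣ)) e j) • x j)]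
  simp

lemma Ty.pred {n : ℕ} {c : ℝ} (h : Ty X (Fin (n + 1)) c) : Ty X (Fin n) c := by
  intro x
  have := h (Fin.cons 0 x)
  rw [exp_succ] at this
  simpa [Fin.sum_univ_succ] using this

lemma Ty.of_le {n m : ℕ} {c : ℝ} (hnm : n ≤ m) (h : Ty X (Fin m) c) : Ty X (Fin n) c := by
  induction m, hnm using Nat.le_induction with
  | base => exact h
  | succ m _ ih => exact ih h.pred

lemma Ty.prod {ι κ : Type} [Fintype ι] [DecidableEq ι] [Fintype κ] [DecidableEq κ] {c c' : ℝ} (hc : 0 ≤ c)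
    (h : Ty X ι c) (h' : Ty X κ c') : Ty X (ι × κ) (c * c') := by
  intro x
  set F : (ι × κ → ℤˣ) → ℝ := fun e => ‖∑ p, sg (e p) • x p‖ ^ 2 with hF
  have h1 : ∀ δ : ι → ℤˣ, 𝔼 e, F e = 𝔼 e, F ((fun p : ι × κ => δ p.1) * e) := fun δ =>
    (Fintype.expect_equiv (Equiv.mulLeft (fun p : ι × κ => δ p.1)) _ _ fun e => rfl).symm
  have h2 : 𝔼 e, F e = 𝔼 e, 𝔼 δ : ι → ℤˣ, F ((fun p : ι × κ => δ p.1) * e) := by
    rw [Finset.expect_comm, ← Finset.expect_congr rfl fun δ _ => h1 δ, Fintype.expect_const]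
  have h3 : ∀ e : ι × κ → ℤˣ, 𝔼 δ : ι → ℤˣ, F ((fun p : ι × κ => δ p.1) * e) ≤
      c * ∑ i, ‖∑ j, sg (e (i, j)) • x (i, j)‖ ^ 2 := by
    intro e
    refine le_of_eq_of_le ?_ (h fun i => ∑ j, sg (e (i, j)) • x (i, j))
    refine Finset.expect_congr rfl fun δ _ => ?_
    simp only [hF, Fintype.sum_prod_type, Pi.mul_apply, sg_mul, mul_smul, Finset.smul_sum]
  have h4 : ∀ i, 𝔼 e : ι × κ → ℤˣ, ‖∑ j, sg (e (i, j)) • x (i, j)‖ ^ 2 ≤ c' * ∑ j, ‖x (i, j)‖ ^ 2 := by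
    intro i
    refine le_of_eq_of_le ?_ (h' fun j => x (i, j))
    rw [← exp_eval i (fun η : κ → ℤˣ => ‖∑ j, sg (η j) • x (i, j)‖ ^ 2)]
    exact Fintype.expect_equiv (Equiv.curry ι κ ℤˣ) _ _ fun e => rfl
  change 𝔼 e, F e ≤ _
  rw [h2]
  refine (exp_mono h3).trans ?_
  rw [← Finset.mul_expect, Finset.expect_sum_comm, mul_assoc, Fintype.sum_prod_type, Finset.mul_sum _ _ c']
  exact mul_le_mul_of_nonneg_left (Finset.sum_le_sum fun i _ => h4 i) hc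

lemma Ty.pow {k : ℕ} {c : ℝ} (hc : 0 ≤ c) (h : Ty X (Fin k) c) (r : ℕ) : Ty X (Fin (k ^ r)) (c ^ r) := by
  induction r with
  | zero =>
    intro x
    have : ∀ e : Fin (k ^ 0) → ℤˣ, ‖∑ i, sg (e i) • x i‖ ^ 2 ≤ c ^ 0 * ∑ i, ‖x i‖ ^ 2 := by
      intro e
      haveI : Unique (Fin (k ^ 0)) := by rw [pow_zero]; infer_instance
      simp [norm_smul, abs_sg]
    exact (exp_mono this).trans (by rw [Fintype.expect_const])
  | succ r ih =>
    rw [pow_succ, pow_succ]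
    exact (Ty.prod (pow_nonneg hc r) ih h).equiv finProdFinEquiv

lemma tri {ι : Type} [Fintype ι] (e : ι → ℤˣ) (x : ι → X) : ‖∑ i, sg (e i) • x i‖ ≤ ∑ i, ‖x i‖ :=
  (norm_sum_le _ _).trans (le_of_eq (by simp [norm_smul, abs_sg]))

lemma base {k : ℕ} (hk : 2 ≤ k) {ε : ℝ} (hε : 0 < ε)
    (h : ∀ x : Fin k → X, (∀ i, ‖x i‖ ≤ 1) → ∃ s : Fin k → ℝ, (∀ i, s i = 1 ∨ s i = -1) ∧
      ‖∑ i, s i • x i‖ ≤ k * (1 - ε)) :
    ∃ l : ℝ, 0 < l ∧ l < 1 ∧ Ty X (Fin k) (l * k) := by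
  have hk0 : (2 : ℝ) ≤ k := by exact_mod_cast hk
  have hε1 : ε ≤ 1 := by
    obtain ⟨s, -, hs⟩ := h 0 (by simp)
    simp only [Pi.zero_apply, smul_zero, sum_const_zero, norm_zero] at hs
    by_contra hc
    push Not at hc
    nlinarith
  set N : ℝ := ((Fintype.card (Fin k → ℤˣ) : ℕ) : ℝ) with hN
  have hN1 : 1 ≤ N := by rw [hN]; exact_mod_cast Fintype.card_pos
  set q : ℝ := 1 - ε ^ 2 with hq
  have hq0 : 0 ≤ q := by nlinarith
  have hq1 : q < 1 := by nlinarith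
  set l1 : ℝ := 1 - (1 - q ^ 2) / N with hl1
  set l2 : ℝ := (1 - ε ^ 2 / (2 * k)) ^ 2 with hl2
  have ht0 : 0 < ε ^ 2 / (2 * k) := by positivity
  have ht1 : ε ^ 2 / (2 * k) < 1 := by rw [div_lt_one (by positivity)]; nlinarith
  have hl20 : 0 < l2 := by rw [hl2]; exact pow_pos (by linarith) 2
  have hl21 : l2 < 1 := by rw [hl2]; nlinarith
  have hl11 : l1 < 1 := by
    have : 0 < (1 - q ^ 2) / N := div_pos (by nlinarith) (by linarith)
    linarith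
  refine ⟨max l1 l2, lt_max_of_lt_right hl20, max_lt hl11 hl21, fun x => ?_⟩
  set ρ : ℝ := Real.sqrt ((∑ i, ‖x i‖ ^ 2) / k) with hρ
  have hρ0 : 0 ≤ ρ := Real.sqrt_nonneg _
  have hs : ∑ i, ‖x i‖ ^ 2 = k * ρ ^ 2 := by
    rw [hρ, Real.sq_sqrt (by positivity)]; field_simp
  have hcs : (∑ i, ‖x i‖) ^ 2 ≤ k * (k * ρ ^ 2) := by
    have := sq_sum_le_card_mul_sum_sq (s := Finset.univ) (f := fun i => ‖x i‖)
    simpa [hs] using this
  have hS0 : 0 ≤ ∑ i, ‖x i‖ := by positivity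
  have hall : ∀ e : Fin k → ℤˣ, ‖∑ i, sg (e i) • x i‖ ^ 2 ≤ (∑ i, ‖x i‖) ^ 2 := fun e =>
    pow_le_pow_left₀ (norm_nonneg _) (tri e x) 2
  rw [hs]
  by_cases hc : ∀ i, ‖x i‖ ≤ (1 + ε) * ρ
  · obtain ⟨e0, he0⟩ : ∃ e0 : Fin k → ℤˣ, ‖∑ i, sg (e0 i) • x i‖ ≤ k * q * ρ := by
      rcases hρ0.eq_or_lt with h0 | h0
      · refine ⟨1, ?_⟩
        have : ∀ i, x i = 0 := fun i => by simpa [← h0] using hc i
        simp [this, ← h0]
      · have hp : 0 < (1 + ε) * ρ := by positivity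
        obtain ⟨s, hs1, hs2⟩ := h (fun i => ((1 + ε) * ρ)⁻¹ • x i) fun i => by
          rw [norm_smul, Real.norm_of_nonneg (by positivity), inv_mul_le_iff₀ hp]; simpa using hc i
        refine ⟨fun i => if s i = 1 then 1 else -1, ?_⟩
        have e1 : ∀ i, sg (if s i = 1 then 1 else -1) = s i := fun i => by
          rcases hs1 i with h1 | h1
          · simp [h1, sg]
          · rw [if_neg (by rw [h1]; norm_num), h1, sg_neg, sg_one]
        simp only [e1]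
        have e2 : ∑ i, s i • ((1 + ε) * ρ)⁻¹ • x i = ((1 + ε) * ρ)⁻¹ • ∑ i, s i • x i := by
          rw [Finset.smul_sum]; exact Finset.sum_congr rfl fun i _ => smul_comm _ _ _
        rw [e2, norm_smul, Real.norm_of_nonneg (by positivity), inv_mul_le_iff₀ hp] at hs2
        refine hs2.trans (le_of_eq ?_)
        rw [hq]; ring
    have h1 : k * (k * ρ ^ 2) - ‖∑ i, sg (e0 i) • x i‖ ^ 2 ≤
        ∑ e : Fin k → ℤˣ, (k * (k * ρ ^ 2) - ‖∑ i, sg (e i) • x i‖ ^ 2) :=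
      Finset.single_le_sum (f := fun e : Fin k → ℤˣ => k * (k * ρ ^ 2) - ‖∑ i, sg (e i) • x i‖ ^ 2)
        (fun e _ => sub_nonneg.2 ((hall e).trans hcs)) (Finset.mem_univ e0)
    rw [Finset.sum_sub_distrib, Finset.sum_const, Finset.card_univ, nsmul_eq_mul, ← hN] at h1
    have h2 : ‖∑ i, sg (e0 i) • x i‖ ^ 2 ≤ (k * q * ρ) ^ 2 := pow_le_pow_left₀ (norm_nonneg _) he0 2
    rw [Fintype.expect_eq_sum_div_card, ← hN, div_le_iff₀ (by linarith)]
    have h3 : l1 * k * (k * ρ ^ 2) * N = N * (k * (k * ρ ^ 2)) - (k * (k * ρ ^ 2) - (k * q * ρ) ^ 2) := by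
      rw [hl1]; field_simp
    have h4 : l1 * k * (k * ρ ^ 2) * N ≤ max l1 l2 * k * (k * ρ ^ 2) * N := by
      gcongr; exact le_max_left _ _
    linarith
  · push Not at hc
    obtain ⟨j, hj⟩ := hc
    have h1 : (‖x j‖ - ρ) ^ 2 ≤ ∑ i, (‖x i‖ - ρ) ^ 2 :=
      Finset.single_le_sum (f := fun i => (‖x i‖ - ρ) ^ 2) (fun i _ => sq_nonneg _) (Finset.mem_univ j)
    have h2 : ∑ i, (‖x i‖ - ρ) ^ 2 = ∑ i, ‖x i‖ ^ 2 - 2 * ρ * ∑ i, ‖x i‖ + k * ρ ^ 2 := by
      simp only [sub_sq, Finset.sum_add_distrib, Finset.sum_sub_distrib, Finset.mul_sum, Finset.sum_const,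
        Finset.card_univ, Fintype.card_fin, nsmul_eq_mul]
      congr 2
      exact Finset.sum_congr rfl fun i _ => by ring
    have h3 : (ε * ρ) ^ 2 ≤ (‖x j‖ - ρ) ^ 2 := pow_le_pow_left₀ (by positivity) (by linarith) 2
    have h5 : (∑ i, ‖x i‖) ^ 2 ≤ l2 * k * (k * ρ ^ 2) := by
      rcases hρ0.eq_or_lt with h0 | h0
      · rw [← h0] at hcs ⊢; simpa using hcs
      · have h6 : ∑ i, ‖x i‖ ≤ (1 - ε ^ 2 / (2 * k)) * k * ρ := by
          have : (1 - ε ^ 2 / (2 * k)) * k * ρ = k * ρ - ε ^ 2 / 2 * ρ := by field_simp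
          rw [this]
          refine le_of_mul_le_mul_left ?_ h0
          nlinarith
        refine (pow_le_pow_left₀ hS0 h6 2).trans (le_of_eq ?_)
        rw [hl2]; ring
    refine (exp_mono hall).trans ?_
    rw [Fintype.expect_const]
    refine h5.trans ?_
    gcongr; exact le_max_right _ _

lemma type_bound {k : ℕ} (hk : 2 ≤ k) {ε : ℝ} (hε : 0 < ε)
    (h : ∀ x : Fin k → X, (∀ i, ‖x i‖ ≤ 1) → ∃ s : Fin k → ℝ, (∀ i, s i = 1 ∨ s i = -1) ∧
      ‖∑ i, s i • x i‖ ≤ k * (1 - ε)) :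
    ∃ μ : ℝ, 0 < μ ∧ μ < 1 ∧ ∀ r n : ℕ, n ≤ k ^ r → ∀ B : ℝ, 0 < B → ∀ x : Fin n → X, (∀ i, ‖x i‖ ≤ B) →
      𝔼 e : Fin n → ℤˣ, ‖∑ i, sg (e i) • x i‖ ≤ B * (μ * k) ^ r := by
  obtain ⟨l, hl0, hl1, hl⟩ := base hk hε h
  have hk0 : (0 : ℝ) < k := by exact_mod_cast (by omega : 0 < k)
  refine ⟨Real.sqrt l, Real.sqrt_pos.2 hl0, by rw [Real.sqrt_lt' one_pos]; simpa, fun r n hn B hB x hx => ?_⟩
  have h1 := (hl.pow (by positivity) r).of_le hn x
  set t : ℝ := B * (Real.sqrt l * k) ^ r with ht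
  have ht0 : 0 < t := by have := Real.sqrt_pos.2 hl0; positivity
  have h2 : (l * k) ^ r * ∑ i, ‖x i‖ ^ 2 ≤ t ^ 2 := by
    have h3 : ∑ i, ‖x i‖ ^ 2 ≤ (k : ℝ) ^ r * B ^ 2 := by
      refine (Finset.sum_le_sum fun i _ => pow_le_pow_left₀ (norm_nonneg _) (hx i) 2).trans ?_
      rw [Finset.sum_const, Finset.card_univ, Fintype.card_fin, nsmul_eq_mul]
      gcongr; exact_mod_cast hn
    refine (mul_le_mul_of_nonneg_left h3 (by positivity)).trans (le_of_eq ?_)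
    rw [ht, mul_pow B, ← pow_mul, mul_comm r 2, pow_mul, mul_pow (Real.sqrt l), Real.sq_sqrt hl0.le,
      ← mul_assoc, ← mul_pow]
    ring
  have h4 : ∀ e : Fin n → ℤˣ, ‖∑ i, sg (e i) • x i‖ ≤ ‖∑ i, sg (e i) • x i‖ ^ 2 / (2 * t) + t / 2 := by
    intro e
    rw [div_add_div _ _ (by positivity) (by positivity), le_div_iff₀ (by positivity)]
    nlinarith [sq_nonneg (‖∑ i, sg (e i) • x i‖ - t)]
  refine (exp_mono h4).trans ?_
  rw [Finset.expect_add_distrib, ← Finset.expect_div, Fintype.expect_const]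
  have : (𝔼 e : Fin n → ℤˣ, ‖∑ i, sg (e i) • x i‖ ^ 2) / (2 * t) ≤ t / 2 := by
    rw [div_le_iff₀ (by positivity)]; nlinarith
  linarith

section contraction
variable {T D : Type*} [Fintype T] [Nonempty T] [Fintype D] [Nonempty D]

lemma one_step (G ψ : T → ℝ) (φ : D → T → ℝ) (h : ∀ s t, |ψ s - ψ t| ≤ 𝔼 k, |φ k s - φ k t|) :
    𝔼 e : ℤˣ, ⨆ t, (G t + sg e * ψ t) ≤ 𝔼 k, 𝔼 e : ℤˣ, ⨆ t, (G t + sg e * φ k t) := by
  simp only [exp_sign, sg_neg, sg_one]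
  obtain ⟨s, hs⟩ := exists_eq_ciSup_of_finite (f := fun t => G t + 1 * ψ t)
  obtain ⟨t, ht⟩ := exists_eq_ciSup_of_finite (f := fun t => G t + -1 * ψ t)
  rw [← hs, ← ht]
  have h1 : ∀ k, (G s + G t) / 2 + |φ k s - φ k t| / 2 ≤
      ((⨆ t, (G t + 1 * φ k t)) + ⨆ t, (G t + -1 * φ k t)) / 2 := by
    intro k
    have a1 := fun u => le_ciSup (f := fun t => G t + 1 * φ k t) (Finite.bddAbove_range _) u
    have a2 := fun u => le_ciSup (f := fun t => G t + -1 * φ k t) (Finite.bddAbove_range _) u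
    have := a1 s; have := a1 t; have := a2 s; have := a2 t
    rcases abs_cases (φ k s - φ k t) with h2 | h2 <;> linarith [h2.1]
  refine le_trans ?_ (exp_mono h1)
  rw [Finset.expect_add_distrib, Fintype.expect_const, ← Finset.expect_div]
  have := h s t
  have := le_abs_self (ψ s - ψ t)
  linarith

lemma contraction (n : ℕ) : ∀ (G : T → ℝ) (ψ : Fin n → T → ℝ) (φ : Fin n → D → T → ℝ),
    (∀ i s t, |ψ i s - ψ i t| ≤ 𝔼 k, |φ i k s - φ i k t|) →
    𝔼 e : Fin n → ℤˣ, ⨆ t, (G t + ∑ i, sg (e i) * ψ i t) ≤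
      𝔼 K : Fin n → D, 𝔼 e : Fin n → ℤˣ, ⨆ t, (G t + ∑ i, sg (e i) * φ i (K i) t) := by
  induction n with
  | zero => intro G ψ φ _; simp
  | succ n ih =>
    intro G ψ φ h
    rw [exp_succ, exp_succ]
    simp only [exp_succ, Fin.sum_univ_succ, Fin.cons_zero, Fin.cons_succ]
    calc 𝔼 a : ℤˣ, 𝔼 e : Fin n → ℤˣ, ⨆ t, (G t + (sg a * ψ 0 t + ∑ i, sg (e i) * ψ i.succ t))
        ≤ 𝔼 a : ℤˣ, 𝔼 K : Fin n → D, 𝔼 e : Fin n → ℤˣ,
          ⨆ t, ((G t + ∑ i, sg (e i) * φ i.succ (K i) t) + sg a * ψ 0 t) := by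
          refine exp_mono fun a => ?_
          have := ih (fun t => G t + sg a * ψ 0 t) (fun i => ψ i.succ) (fun i => φ i.succ) fun i => h i.succ
          simpa only [add_assoc, add_comm, add_left_comm] using this
      _ = 𝔼 K : Fin n → D, 𝔼 e : Fin n → ℤˣ, 𝔼 a : ℤˣ,
          ⨆ t, ((G t + ∑ i, sg (e i) * φ i.succ (K i) t) + sg a * ψ 0 t) := by
          rw [Finset.expect_comm]
          exact Finset.expect_congr rfl fun K _ => Finset.expect_comm _ _ _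
      _ ≤ 𝔼 K : Fin n → D, 𝔼 e : Fin n → ℤˣ, 𝔼 k : D, 𝔼 a : ℤˣ,
          ⨆ t, ((G t + ∑ i, sg (e i) * φ i.succ (K i) t) + sg a * φ 0 k t) :=
          exp_mono fun K => exp_mono fun e => one_step _ _ _ (h 0)
      _ = _ := by
          rw [Finset.expect_comm (univ : Finset D)]
          refine Finset.expect_congr rfl fun K _ => ?_
          rw [Finset.expect_comm]
          refine Finset.expect_congr rfl fun k _ => ?_
          rw [Finset.expect_comm]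
          simp only [add_assoc, add_comm, add_left_comm]

end contraction

lemma basis_lemma (d : ℕ) : ∀ E : Submodule ℝ X, FiniteDimensional ℝ E → Module.finrank ℝ E ≤ d →
    ∃ v : Fin d → X, (∀ k, ‖v k‖ ≤ 1) ∧ ∀ a ∈ E, ∀ u : StrongDual ℝ X, |u a| ≤ 2 ^ d * ‖a‖ * ∑ k, |u (v k)| := by
  induction d with
  | zero =>
    intro E _ hE
    have : E = ⊥ := Submodule.finrank_eq_zero.1 (by omega)
    refine ⟨fun _ => 0, by simp, fun a ha u => ?_⟩
    rw [this, Submodule.mem_bot] at ha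
    simp [ha]
  | succ d ih =>
    intro E _ hE
    by_cases h0 : E = ⊥
    · refine ⟨fun _ => 0, by simp, fun a ha u => ?_⟩
      rw [h0, Submodule.mem_bot] at ha
      simp [ha]
    obtain ⟨y, hy, hy0⟩ := Submodule.exists_mem_ne_zero_of_ne_bot h0
    set x : X := ‖y‖⁻¹ • y with hx
    have hxE : x ∈ E := E.smul_mem _ hy
    have hx1 : ‖x‖ = 1 := by rw [hx, norm_smul, norm_inv, norm_norm, inv_mul_cancel₀ (norm_ne_zero_iff.2 hy0)]
    obtain ⟨f, hf1, hf2⟩ := exists_dual_vector ℝ x (by rw [hx1]; norm_num)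
    have hf3 : f x = 1 := by rw [hf2, hx1]; simp
    have hlt : E ⊓ LinearMap.ker (f : X →ₗ[ℝ] ℝ) < E := by
      refine lt_of_le_of_ne inf_le_left fun he => ?_
      rw [← he] at hxE
      have := hxE.2
      simp [hf3] at this
    obtain ⟨v, hv1, hv2⟩ := ih (E ⊓ LinearMap.ker (f : X →ₗ[ℝ] ℝ)) inferInstance
      (by have := Submodule.finrank_lt_finrank_of_lt hlt; omega)
    refine ⟨Fin.cons x v, fun k => Fin.cases (by simp [hx1]) (fun j => by simpa using hv1 j) k, fun a ha u => ?_⟩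
    have hfa : |f a| ≤ ‖a‖ := by simpa [hf1] using f.le_opNorm a
    have h1 := hv2 (a - f a • x) ⟨E.sub_mem ha (E.smul_mem _ hxE), by simp [hf3]⟩ u
    have h2 : ‖a - f a • x‖ ≤ 2 * ‖a‖ := by
      refine (norm_sub_le _ _).trans ?_
      rw [norm_smul, hx1, Real.norm_eq_abs]; linarith
    have h3 : u a = f a * u x + u (a - f a • x) := by simp
    have h4 : (1 : ℝ) ≤ 2 ^ (d + 1) := one_le_pow₀ (by norm_num)
    have h5 : 0 ≤ ∑ k, |u (v k)| := by positivity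
    rw [Fin.sum_univ_succ]
    simp only [Fin.cons_zero, Fin.cons_succ]
    rw [h3]
    refine (abs_add_le _ _).trans ?_
    rw [abs_mul, mul_add]
    refine add_le_add ?_ (h1.trans ?_)
    · refine mul_le_mul_of_nonneg_right ?_ (abs_nonneg _)
      nlinarith [norm_nonneg a]
    · refine mul_le_mul_of_nonneg_right ?_ h5
      rw [pow_succ, mul_assoc]
      exact mul_le_mul_of_nonneg_left h2 (by positivity)

end Pool.Agent.H.MP_d665d0_pr
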