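import Pool.Agent.H.MP_d665d0_pr.A

/-! Support functions, symmetrization and the almost sure limit. -/

open Finset Metric MeasureTheory ProbabilityTheory Filter Topology
open scoped BigOperators Pointwise BoundedContinuousFunction

namespace Pool.Agent.H.MP_d665d0_pr

variable {X : Type*} [NormedAddCommGroup X] [NormedSpace ℝ X]

/-- support function representation -/
def Rp (A : Set X) (z : sphere (0 : StrongDual ℝ X) 1 →ᵇ ℝ) : Prop :=
  ∀ f : sphere (0 : StrongDual ℝ X) 1, IsLUB (f.1 '' A) (z f)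

lemma Rp.add {A B : Set X} {z w} (hA : Rp A z) (hB : Rp B w) : Rp (A + B) (z + w) := fun f => by
  rw [Set.image_add f.1]; exact (hA f).add (hB f)

lemma Rp.zero : Rp (0 : Set X) 0 := fun f => by
  rw [Set.image_zero, map_zero]; exact isLUB_singleton

lemma Rp.sum {A : ℕ → Set X} {z : ℕ → sphere (0 : StrongDual ℝ X) 1 →ᵇ ℝ} (h : ∀ i, Rp (A i) (z i)) (n : ℕ) :
    Rp (∑ i ∈ range n, A i) (∑ i ∈ range n, z i) := by
  induction n with
  | zero => exact Rp.zero
  | succ n ih => rw [sum_range_succ, sum_range_succ]; exact ih.add (h n)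

lemma Rp.smul {A : Set X} {z} (h : Rp A z) {t : ℝ} (ht : 0 < t) : Rp (t • A) (t • z) := fun f => by
  have h1 : f.1 '' (t • A) = (OrderIso.mulLeft₀ t ht) '' (f.1 '' A) := by
    rw [Set.image_image, ← Set.image_smul, Set.image_image]
    exact Set.image_congr fun a _ => by simp
  rw [h1]
  exact (OrderIso.isLUB_image' _).2 (h f)

lemma Rp.norm_le {A : Set X} {z} (h : Rp A z) (hA : A.Nonempty) {M : ℝ} (hM : A ⊆ closedBall 0 M) : ‖z‖ ≤ M := by
  obtain ⟨a, ha⟩ := hA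
  have hb : ∀ (f : sphere (0 : StrongDual ℝ X) 1), ∀ a ∈ A, |f.1 a| ≤ M := fun f a ha => by
    have h1 := f.1.le_opNorm a
    rw [norm_eq_of_mem_sphere f, one_mul] at h1
    exact h1.trans (mem_closedBall_zero_iff.1 (hM ha))
  refine (BoundedContinuousFunction.norm_le ((norm_nonneg a).trans (mem_closedBall_zero_iff.1 (hM ha)))).2
    fun f => abs_le.2 ⟨?_, ?_⟩
  · exact (abs_le.1 (hb f a ha)).1.trans ((h f).1 ⟨a, ha, rfl⟩)
  · exact (h f).2 (by rintro _ ⟨b, hb', rfl⟩; exact (abs_le.1 (hb f b hb')).2)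

lemma infDist_le {A B : Set X} {z w} (hA : Rp A z) (hB : Rp B w) (hc : Convex ℝ B) (hn : B.Nonempty)
    {a : X} (ha : a ∈ A) : infDist a B ≤ ‖z - w‖ := by
  by_contra hlt
  push Not at hlt
  set δ := ‖z - w‖ with hδ
  set δ' := infDist a B with hδ'
  have hδ0 : 0 ≤ δ := norm_nonneg _
  have hp : 0 < δ' := hδ0.trans_lt hlt
  obtain ⟨f, u, h1, h2⟩ := geometric_hahn_banach_open (convex_ball a δ') isOpen_ball hc disjoint_ball_infDist
  obtain ⟨b0, hb0⟩ := hn
  have hf0 : 0 < ‖f‖ := norm_pos_iff.2 fun h0 => by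
    have := (h1 a (mem_ball_self hp)).trans_le (h2 b0 hb0)
    simp [h0] at this
  obtain ⟨x, hx1, hx2⟩ := f.exists_lt_apply_of_lt_opNorm (r := δ / δ' * ‖f‖)
    (by have : δ / δ' < 1 := (div_lt_one hp).2 hlt
        nlinarith)
  have hb : ∀ s : ℝ, |s| = 1 → f a + δ' * (s * f x) < u := fun s hs => by
    have := h1 (a + (δ' * s) • x) (by
      rw [mem_ball_iff_norm, add_sub_cancel_left, norm_smul, Real.norm_eq_abs, abs_mul, hs, abs_of_pos hp]
      nlinarith)
    simpa [mul_assoc] using this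
  have h3 : f a + δ * ‖f‖ < u := by
    have e1 : δ * ‖f‖ < δ' * |f x| := by
      rw [div_mul_eq_mul_div, div_lt_iff₀ hp, Real.norm_eq_abs] at hx2; linarith
    have := hb 1 (by simp); have := hb (-1) (by simp)
    rcases abs_cases (f x) with h | h <;> rw [h.1] at e1 <;> nlinarith
  set g : sphere (0 : StrongDual ℝ X) 1 := ⟨-(‖f‖⁻¹ • f), by
    rw [mem_sphere_zero_iff_norm, norm_neg, norm_smul, norm_inv, norm_norm, inv_mul_cancel₀ hf0.ne']⟩ with hg
  have hgv : ∀ y, g.1 y = -(‖f‖⁻¹ * f y) := fun y => by simp [hg]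
  have h4 : w g ≤ -(‖f‖⁻¹ * u) := (hB g).2 (by
    rintro _ ⟨b, hb', rfl⟩
    rw [hgv]
    exact neg_le_neg (mul_le_mul_of_nonneg_left (h2 b hb') (by positivity)))
  have h5 : -(‖f‖⁻¹ * f a) ≤ z g := hgv a ▸ (hA g).1 ⟨a, ha, rfl⟩
  have h6 : z g - w g ≤ δ := (le_abs_self _).trans ((z - w).norm_coe_le_norm g)
  have h7 : ‖f‖⁻¹ * (u - f a) ≤ δ := by linarith
  rw [inv_mul_le_iff₀ hf0] at h7
  linarith

lemma haus_le {A B : Set X} {z w} (hA : Rp A z) (hB : Rp B w) (hcA : Convex ℝ A) (hcB : Convex ℝ B)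
    (hnA : A.Nonempty) (hnB : B.Nonempty) : hausdorffEDist A B ≤ ENNReal.ofReal ‖z - w‖ := by
  refine hausdorffEDist_le_of_infEDist (fun a ha => ?_) (fun b hb => ?_)
  · rw [← ENNReal.ofReal_toReal (infEDist_ne_top hnB)]
    exact ENNReal.ofReal_le_ofReal (infDist_le hA hB hcB hnB ha)
  · rw [← ENNReal.ofReal_toReal (infEDist_ne_top hnA), norm_sub_rev]
    exact ENNReal.ofReal_le_ofReal (infDist_le hB hA hcA hnA hb)

lemma vectors {d : ℕ} {A : Set X} (hA : A.Nonempty) {M : ℝ} (hM0 : 0 < M) (hM : A ⊆ closedBall 0 M)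
    (hd : Module.rank ℝ (vectorSpan ℝ A) ≤ d) :
    ∃ w : Fin (d + 1) → X, (∀ k, ‖w k‖ ≤ (d + 1) * (2 ^ d * (2 * M))) ∧
      ∀ f g : StrongDual ℝ X, |sSup (f '' A) - sSup (g '' A)| ≤ 𝔼 k, |f (w k) - g (w k)| := by
  have hfin : FiniteDimensional ℝ (vectorSpan ℝ A) :=
    Module.rank_lt_aleph0_iff.1 (hd.trans_lt (Cardinal.natCast_lt_aleph0))
  obtain ⟨v, hv1, hv2⟩ := basis_lemma d _ hfin (Module.finrank_le_of_rank_le hd)
  obtain ⟨a0, ha0⟩ := hA
  have hn : ∀ a ∈ A, ‖a‖ ≤ M := fun a ha => mem_closedBall_zero_iff.1 (hM ha)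
  have h2 : (1 : ℝ) ≤ 2 ^ d := one_le_pow₀ (by norm_num)
  refine ⟨fun k => ((d : ℝ) + 1) • (Fin.cons a0 (fun j => (2 ^ d * (2 * M)) • v j) : Fin (d + 1) → X) k,
    fun k => ?_, fun f g => ?_⟩
  · rw [norm_smul, Real.norm_of_nonneg (by positivity)]
    refine mul_le_mul_of_nonneg_left ?_ (by positivity)
    refine Fin.cases ?_ (fun j => ?_) k
    · simp only [Fin.cons_zero]; nlinarith [hn a0 ha0]
    · simp only [Fin.cons_succ]
      rw [norm_smul, Real.norm_of_nonneg (by positivity)]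
      exact mul_le_of_le_one_right (by positivity) (hv1 j)
  · set L : ℝ := |(f - g) a0| + 2 ^ d * (2 * M) * ∑ j, |(f - g) (v j)| with hL
    have h3 : ∀ a ∈ A, |f a - g a| ≤ L := fun a ha => by
      have h4 := hv2 (a - a0) (vsub_mem_vectorSpan ℝ ha ha0) (f - g)
      have h5 : ‖a - a0‖ ≤ 2 * M := (norm_sub_le _ _).trans (by linarith [hn a ha, hn a0 ha0])
      have h6 : f a - g a = (f - g) a0 + (f - g) (a - a0) := by simp; ring
      rw [h6]
      refine (abs_add_le _ _).trans (add_le_add le_rfl (h4.trans ?_))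
      gcongr
    have hb : ∀ u : StrongDual ℝ X, BddAbove (u '' A) := fun u => ⟨‖u‖ * M, by
      rintro _ ⟨a, ha, rfl⟩
      exact (le_abs_self _).trans ((u.le_opNorm a).trans (by gcongr; exact hn a ha))⟩
    have h7 : |sSup (f '' A) - sSup (g '' A)| ≤ L := by
      rw [abs_sub_le_iff, sub_le_iff_le_add, sub_le_iff_le_add]
      constructor
      · refine csSup_le ⟨_, a0, ha0, rfl⟩ ?_
        rintro _ ⟨a, ha, rfl⟩
        linarith [(abs_le.1 (h3 a ha)).2, le_csSup (hb g) ⟨a, ha, rfl⟩]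
      · refine csSup_le ⟨_, a0, ha0, rfl⟩ ?_
        rintro _ ⟨a, ha, rfl⟩
        linarith [(abs_le.1 (h3 a ha)).1, le_csSup (hb f) ⟨a, ha, rfl⟩]
    refine h7.trans (le_of_eq ?_)
    rw [Fintype.expect_eq_sum_div_card, Fintype.card_fin, Fin.sum_univ_succ, eq_div_iff (by positivity)]
    simp only [Fin.cons_zero, Fin.cons_succ, map_smul, smul_eq_mul, ← mul_sub, abs_mul, hL,
      ContinuousLinearMap.sub_apply, ← Finset.mul_sum]
    rw [abs_of_nonneg (by positivity : (0 : ℝ) ≤ d + 1), abs_of_nonneg (by positivity : (0 : ℝ) ≤ 2 ^ d),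
      abs_of_pos hM0, abs_two]
    push_cast; ring

lemma rad_bound {n d : ℕ} {c M : ℝ} (hM0 : 0 < M)
    (H : ∀ B : ℝ, 0 < B → ∀ x : Fin n → X, (∀ i, ‖x i‖ ≤ B) → 𝔼 e : Fin n → ℤˣ, ‖∑ i, sg (e i) • x i‖ ≤ B * c)
    (A : Fin n → Set X) (hA : ∀ i, (A i).Nonempty) (hM : ∀ i, A i ⊆ closedBall 0 M)
    (hd : ∀ i, Module.rank ℝ (vectorSpan ℝ (A i)) ≤ d) (z : Fin n → sphere (0 : StrongDual ℝ X) 1 →ᵇ ℝ)
    (hz : ∀ i, Rp (A i) (z i)) :
    𝔼 e : Fin n → ℤˣ, ‖∑ i, sg (e i) • z i‖ ≤ 2 * ((d + 1) * (2 ^ d * (2 * M)) * c) := by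
  choose w hw1 hw2 using fun i => vectors (hA i) hM0 (hM i) (hd i)
  refine le_of_forall_pos_le_add fun η hη => ?_
  have h0 : ∀ i, sSup ((0 : StrongDual ℝ X) '' A i) = 0 := fun i => by
    rw [show ((0 : StrongDual ℝ X) : X → ℝ) = fun _ => 0 from rfl, (hA i).image_const, csSup_singleton]
  have h1 : ∀ e : Fin n → ℤˣ, ∃ g : StrongDual ℝ X, ‖g‖ ≤ 1 ∧
      ‖∑ i, sg (e i) • z i‖ ≤ |∑ i, sg (e i) * sSup (g '' A i)| + η := by
    intro e
    by_contra hc
    push Not at hc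
    have h2 := hc 0 (by simp)
    simp only [h0, mul_zero, sum_const_zero, abs_zero, zero_add] at h2
    have h3 : ‖∑ i, sg (e i) • z i‖ ≤ ‖∑ i, sg (e i) • z i‖ - η := by
      refine (BoundedContinuousFunction.norm_le (by linarith)).2 fun f => ?_
      have h4 := hc f.1 (norm_eq_of_mem_sphere f).le
      have h5 : (∑ i, sg (e i) • z i) f = ∑ i, sg (e i) * sSup (f.1 '' A i) := by
        rw [BoundedContinuousFunction.sum_apply]
        exact Finset.sum_congr rfl fun i _ => by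
          rw [(hz i f).csSup_eq ((hA i).image _)]; rfl
      rw [h5, Real.norm_eq_abs]; linarith
    linarith
  choose g hg1 hg2 using h1
  set F : Option (Fin n → ℤˣ) → StrongDual ℝ X := fun t => t.elim 0 g with hF
  have hF1 : ∀ t, ‖F t‖ ≤ 1 := fun t => by cases t with
    | none => simp [hF]
    | some e => exact hg1 e
  set p : (Fin n → ℤˣ) → ℝ := fun e => ⨆ t, ((0 : ℝ) + ∑ i, sg (e i) * sSup (F t '' A i)) with hp
  have hp1 : ∀ e t, ∑ i, sg (e i) * sSup (F t '' A i) ≤ p e := fun e t => by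
    have := le_ciSup (f := fun t => (0 : ℝ) + ∑ i, sg (e i) * sSup (F t '' A i)) (Finite.bddAbove_range _) t
    rwa [zero_add] at this
  have hp0 : ∀ e, 0 ≤ p e := fun e => by
    have := hp1 e none
    simpa only [hF, Option.elim_none, h0, mul_zero, sum_const_zero] using this
  have h6 : ∀ e, ‖∑ i, sg (e i) • z i‖ ≤ p e + p (-e) + η := fun e => by
    refine (hg2 e).trans (add_le_add ?_ le_rfl)
    have a1 := hp1 e (some e)
    have a2 := hp1 (-e) (some e)
    simp only [Pi.neg_apply, sg_neg, neg_mul, sum_neg_distrib] at a2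
    simp only [hF, Option.elim_some] at a1 a2
    rw [abs_le]; constructor <;> linarith [hp0 e, hp0 (-e)]
  have h7 : 𝔼 e, p e ≤ (d + 1) * (2 ^ d * (2 * M)) * c := by
    refine (contraction n (fun _ => 0) (fun i t => sSup (F t '' A i)) (fun i k t => F t (w i k))
      fun i s t => hw2 i _ _).trans ?_
    refine Finset.expect_le univ_nonempty fun K _ => ?_
    refine le_trans (exp_mono fun e => ?_) (H _ (by positivity) (fun i => w i (K i)) fun i => hw1 i _)
    refine ciSup_le fun t => ?_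
    have h8 : ∑ i, sg (e i) * F t (w i (K i)) = F t (∑ i, sg (e i) • w i (K i)) := by simp
    rw [zero_add, h8]
    exact (le_abs_self _).trans (((F t).le_opNorm _).trans (mul_le_of_le_one_left (norm_nonneg _) (hF1 t)))
  have h9 : 𝔼 e, p (-e) = 𝔼 e, p e := Fintype.expect_equiv (Equiv.neg _) _ _ fun e => rfl
  refine (exp_mono h6).trans ?_
  rw [Finset.expect_add_distrib, Finset.expect_add_distrib, h9, Fintype.expect_const]
  linarith

section prob
variable {Z : Type*} [NormedAddCommGroup Z] [NormedSpace ℝ Z] [CompleteSpace Z] [MeasurableSpace Z] [BorelSpace Z]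
  {Ω : Type*} [MeasurableSpace Ω] {P : Measure Ω} [IsProbabilityMeasure P]

lemma symm {n : ℕ} (ξ : Fin n → Ω → Z) (hi : ∀ i, Integrable (ξ i) P) (hind : iIndepFun ξ P) {c : ℝ}
    (h : ∀ x : Fin n → Ω, 𝔼 e : Fin n → ℤˣ, ‖∑ i, sg (e i) • ξ i (x i)‖ ≤ c) :
    ∫ ω, ‖∑ i, (ξ i ω - ∫ y, ξ i y ∂P)‖ ∂P ≤ 2 * c := by
  set μ : Measure (Fin n → Ω) := Measure.pi fun _ => P with hμ
  set ν : Measure (Fin n → Ω × Ω) := Measure.pi fun _ => P.prod P with hν
  have hm : ∀ i, AEMeasurable (ξ i) P := fun i => (hi i).aemeasurable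
  have hev : ∀ i, MeasurePreserving (fun x : Fin n → Ω => x i) μ P := fun i => measurePreserving_eval (fun _ => P) i
  have hiμ : ∀ i, Integrable (fun x : Fin n → Ω => ξ i (x i)) μ := fun i => (hev i).integrable_comp_of_integrable (hi i)
  haveI : ∀ i, IsProbabilityMeasure (P.map (ξ i)) := fun i => Measure.isProbabilityMeasure_map (hm i)
  have hG : AEStronglyMeasurable (fun y : Fin n → Z => ‖∑ i, (y i - ∫ y, ξ i y ∂P)‖)
      (Measure.pi fun i => P.map (ξ i)) := by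
    refine (Finset.aestronglyMeasurable_fun_sum _ fun i _ => AEStronglyMeasurable.sub ?_ aestronglyMeasurable_const).norm
    exact (hi i).aestronglyMeasurable.aestronglyMeasurable_id_map.comp_measurePreserving
      (measurePreserving_eval (fun i => P.map (ξ i)) i)
  have h1 : ∫ ω, ‖∑ i, (ξ i ω - ∫ y, ξ i y ∂P)‖ ∂P = ∫ x, ‖∑ i, (ξ i (x i) - ∫ y, ξ i y ∂P)‖ ∂μ := by
    have e1 := (iIndepFun_iff_map_fun_eq_pi_map hm).1 hind
    have e2 : μ.map (fun x i => ξ i (x i)) = Measure.pi fun i => P.map (ξ i) := Measure.pi_map_pi hm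
    have a1 := integral_map (aemeasurable_pi_lambda (fun ω i => ξ i ω) hm) (e1 ▸ hG)
    have a2 := integral_map (aemeasurable_pi_lambda (fun (x : Fin n → Ω) i => ξ i (x i))
      fun i => (hiμ i).aemeasurable) (e2 ▸ hG)
    rw [← a1, ← a2, e1, e2]
  have hΦ : Integrable (fun p : (Fin n → Ω) × (Fin n → Ω) => ‖∑ i, (ξ i (p.1 i) - ξ i (p.2 i))‖) (μ.prod μ) :=
    (integrable_finsetSum _ fun i _ => ((hiμ i).comp_fst μ).sub ((hiμ i).comp_snd μ)).norm
  have h2 : ∫ x, ‖∑ i, (ξ i (x i) - ∫ y, ξ i y ∂P)‖ ∂μ ≤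
      ∫ p, ‖∑ i, (ξ i (p.1 i) - ξ i (p.2 i))‖ ∂(μ.prod μ) := by
    rw [integral_prod _ hΦ]
    refine integral_mono (integrable_finsetSum _ fun i _ => (hiμ i).sub (integrable_const _)).norm
      hΦ.integral_prod_left fun x => ?_
    refine le_trans (le_of_eq ?_) (norm_integral_le_integral_norm _)
    rw [integral_finsetSum (f := fun i (a : Fin n → Ω) => ξ i (x i) - ξ i (a i)) _
      fun i _ => (integrable_const _).sub (hiμ i)]
    congr 1
    refine Finset.sum_congr rfl fun i _ => ?_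
    rw [integral_sub (integrable_const _) (hiμ i), integral_const, probReal_univ, one_smul]
    congr 1
    have := integral_map (hev i).aemeasurable (f := ξ i) (by rw [(hev i).map_eq]; exact (hi i).aestronglyMeasurable)
    rw [← this, (hev i).map_eq]
  have he := measurePreserving_arrowProdEquivProdArrow Ω Ω (Fin n) (fun _ => P) (fun _ => P)
  set Φ : (Fin n → Ω × Ω) → ℝ := fun w => ‖∑ i, (ξ i (w i).1 - ξ i (w i).2)‖ with hΦd
  have h3 : ∫ p, ‖∑ i, (ξ i (p.1 i) - ξ i (p.2 i))‖ ∂(μ.prod μ) = ∫ w, Φ w ∂ν :=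
    (he.integral_comp' fun p => ‖∑ i, (ξ i (p.1 i) - ξ i (p.2 i))‖).symm
  have hΦν : Integrable Φ ν := he.integrable_comp_of_integrable hΦ
  set τ : (Fin n → ℤˣ) → (Fin n → Ω × Ω) → (Fin n → Ω × Ω) :=
    fun e w i => (if e i = 1 then id else Prod.swap) (w i) with hτ
  have hτm : ∀ e, MeasurePreserving (τ e) ν ν := fun e =>
    measurePreserving_pi _ _ (f := fun i => if e i = 1 then id else Prod.swap) fun i => by
      split_ifs
      · exact MeasurePreserving.id _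
      · exact Measure.measurePreserving_swap
  have h4 : ∀ e, ∫ w, Φ w ∂ν = ∫ w, Φ (τ e w) ∂ν := fun e => by
    have := integral_map (hτm e).aemeasurable (f := Φ) (by rw [(hτm e).map_eq]; exact hΦν.aestronglyMeasurable)
    rw [← this, (hτm e).map_eq]
  have h5 : ∀ w, 𝔼 e, Φ (τ e w) ≤ 2 * c := fun w => by
    have a1 : ∀ e, Φ (τ e w) ≤ ‖∑ i, sg (e i) • ξ i (w i).1‖ + ‖∑ i, sg (e i) • ξ i (w i).2‖ := fun e => by
      refine le_trans (le_of_eq ?_) (norm_sub_le _ _)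
      rw [← Finset.sum_sub_distrib]
      simp only [hΦd, hτ]
      congr 1
      refine Finset.sum_congr rfl fun i _ => ?_
      rcases Int.units_eq_one_or (e i) with h | h
      · simp [h, sg]
      · rw [if_neg (by rw [h]; decide), h, sg_neg, sg_one]; simp; abel
    refine (exp_mono a1).trans ?_
    rw [Finset.expect_add_distrib]
    linarith [h fun i => (w i).1, h fun i => (w i).2]
  have hint : ∀ e, Integrable (fun w => Φ (τ e w)) ν := fun e => (hτm e).integrable_comp_of_integrable hΦν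
  have h6 : ∫ w, Φ w ∂ν = ∫ w, 𝔼 e, Φ (τ e w) ∂ν := by
    simp only [Fintype.expect_eq_sum_div_card]
    rw [integral_div, integral_finsetSum _ fun e _ => hint e, ← Finset.sum_congr rfl fun e _ => h4 e,
      Finset.sum_const, Finset.card_univ, nsmul_eq_mul, mul_div_cancel_left₀]
    exact_mod_cast Fintype.card_ne_zero
  rw [h1]
  refine h2.trans ?_
  rw [h3, h6]
  refine (integral_mono ?_ (integrable_const (2 * c)) h5).trans (by simp)
  simp only [Fintype.expect_eq_sum_div_card]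
  exact (integrable_finsetSum _ fun e _ => hint e).div_const _

omit [IsProbabilityMeasure P] in
lemma ae_lim [IsFiniteMeasure P] (S : ℕ → Ω → ℝ) (h0 : ∀ n ω, 0 ≤ S n ω) (hi : ∀ n, Integrable (S n) P) {L C μ : ℝ}
    (hL0 : 0 ≤ L) (hL : ∀ ω m n, m ≤ n → S n ω ≤ S m ω + L * (n - m)) {k : ℕ} (hk : 2 ≤ k) (hC : 0 ≤ C)
    (hμ0 : 0 < μ) (hμ1 : μ < 1) (hb : ∀ r n, n ≤ k ^ r → ∫ ω, S n ω ∂P ≤ C * (μ * k) ^ r) :
    ∀ᵐ ω ∂P, Tendsto (fun n : ℕ => S n ω / n) atTop (𝓝 0) := by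
  have hk0 : (0 : ℝ) < k := by exact_mod_cast (by omega : 0 < k)
  have h1 : ∀ j : ℕ, ∀ᵐ ω ∂P, ∀ᶠ r in atTop, ω ∉ {ω | (k : ℝ) ^ r ≤ S (j * k ^ r) ω} := by
    intro j
    refine ae_eventually_notMem (ne_top_of_le_ne_top ?_
      (ENNReal.tsum_le_tsum (g := fun r => ENNReal.ofReal (C * (μ * k) ^ j * μ ^ r)) fun r => ?_))
    · rw [← ENNReal.ofReal_tsum_of_nonneg (fun r => by positivity)
        ((summable_geometric_of_lt_one hμ0.le hμ1).mul_left _)]
      exact ENNReal.ofReal_ne_top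
    · rw [← ofReal_measureReal]
      refine ENNReal.ofReal_le_ofReal ?_
      have a1 := mul_meas_ge_le_integral_of_nonneg (ae_of_all _ (h0 (j * k ^ r))) (hi _) ((k : ℝ) ^ r)
      have a2 := hb (j + r) (j * k ^ r) (by
        rw [pow_add]; exact Nat.mul_le_mul_right _ (Nat.lt_pow_self (by omega)).le)
      refine le_of_mul_le_mul_left (a1.trans (a2.trans (le_of_eq ?_))) (by positivity)
      rw [pow_add, mul_pow μ k r]; ring
  filter_upwards [ae_all_iff.2 h1] with ω hω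
  refine Metric.tendsto_atTop.2 fun ε hε => ?_
  obtain ⟨s, hs⟩ := pow_unbounded_of_one_lt ((1 + L) / ε) (by exact_mod_cast (by omega : 1 < k) : (1 : ℝ) < k)
  obtain ⟨r0, hr0⟩ := eventually_atTop.1 ((eventually_all_finset (range (k ^ (s + 1)))).2 fun j _ => hω j)
  refine ⟨k ^ (r0 + s), fun n hn => ?_⟩
  have hn0 : n ≠ 0 := by have := pow_pos (by omega : 0 < k) (r0 + s); omega
  have a1 : r0 + s ≤ Nat.log k n := Nat.le_log_of_pow_le (by omega) hn
  obtain ⟨r, hr⟩ : ∃ r, Nat.log k n = r + s := ⟨Nat.log k n - s, by omega⟩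
  have a2 : k ^ (r + s) ≤ n := hr ▸ Nat.pow_log_le_self k hn0
  have a3 : n < k ^ (r + s + 1) := hr ▸ Nat.lt_pow_succ_log_self (by omega) n
  have hp : 0 < k ^ r := pow_pos (by omega) r
  have a4 : n / k ^ r < k ^ (s + 1) := by
    rw [Nat.div_lt_iff_lt_mul hp, ← pow_add]; convert a3 using 2; ring
  have a5 := hr0 r (by omega) _ (mem_range.2 a4)
  simp only [Set.mem_setOf_eq, not_le] at a5
  have a6 := hL ω _ n (Nat.div_mul_le_self n (k ^ r))
  have a7 : (n : ℝ) - ((n / k ^ r * k ^ r : ℕ) : ℝ) ≤ (k : ℝ) ^ r := by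
    have b1 := Nat.div_add_mod n (k ^ r)
    have b2 := Nat.mod_lt n hp
    have : n ≤ n / k ^ r * k ^ r + k ^ r := by rw [mul_comm]; omega
    have : (n : ℝ) ≤ ((n / k ^ r * k ^ r : ℕ) : ℝ) + (k : ℝ) ^ r := by exact_mod_cast this
    linarith
  have hn1 : (0 : ℝ) < n := by exact_mod_cast Nat.pos_of_ne_zero hn0
  have a8 : (k : ℝ) ^ r * (k : ℝ) ^ s ≤ n := by rw [← pow_add]; exact_mod_cast a2
  rw [Real.dist_eq, sub_zero, abs_of_nonneg (div_nonneg (h0 _ _) hn1.le), div_lt_iff₀ hn1]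
  rw [div_lt_iff₀ hε] at hs
  have a9 : (0 : ℝ) < (k : ℝ) ^ r := by positivity
  nlinarith [mul_le_mul_of_nonneg_left a7 hL0, mul_le_mul_of_nonneg_left a8 hε.le, mul_lt_mul_of_pos_left hs a9]

end prob

end Pool.Agent.H.MP_d665d0_pr
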